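import Pool.Agent.Y217.PB.Stm

/-!
# PB-Q2 (`JCard`): the number of edges of the hull

Job 1022 of project PB (owner helper217).
-/

set_option autoImplicit false

universe u

namespace Pool.Agent.Y523.PB

open Set Topology Metric
open Pool.Agent.Helper775.Surf Pool.Agent.Helper775.Clo
open Pool.Agent.Y217.PB
open scoped InnerProductSpace

section convex

variable {N : ℕ} {K : Set (EuclideanSpace ℝ (Fin N))}

theorem aff_top (hint : (interior K).Nonempty) : affineSpan ℝ K = ⊤ :=
  top_unique ((isOpen_interior.affineSpan_eq_top hint).ge.trans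
    (affineSpan_mono ℝ interior_subset))

theorem vec_top (hint : (interior K).Nonempty) : vectorSpan ℝ K = ⊤ := by
  rw [← direction_affineSpan, aff_top hint, AffineSubspace.direction_top]

theorem hull_ext (hK : IsCompact K) (hc : Convex ℝ K) (hV : (extremePoints ℝ K).Finite) :
    convexHull ℝ (extremePoints ℝ K) = K := by
  have h := closure_convexHull_extremePoints hK hc
  have hcl : IsClosed (convexHull ℝ (extremePoints ℝ K)) := hV.isClosed_convexHull ℝ
  rwa [hcl.closure_eq] at h

theorem card_ext (hK : IsCompact K) (hc : Convex ℝ K) (hV : (extremePoints ℝ K).Finite)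
    (hint : (interior K).Nonempty) : N + 1 ≤ (extremePoints ℝ K).ncard := by
  have h1 : vectorSpan ℝ (extremePoints ℝ K) = ⊤ := by
    have h2 : affineSpan ℝ (extremePoints ℝ K) = ⊤ := by
      rw [← affineSpan_convexHull, hull_ext hK hc hV, aff_top hint]
    rw [← direction_affineSpan, h2, AffineSubspace.direction_top]
  have hne : (extremePoints ℝ K).Nonempty := by
    by_contra h
    rw [not_nonempty_iff_eq_empty] at h
    have h3 := hull_ext hK hc hV
    rw [h, convexHull_empty] at h3
    rw [← h3, interior_empty] at hint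
    exact not_nonempty_empty hint
  have : Fintype (extremePoints ℝ K) := hV.fintype
  have h4 : 0 < (extremePoints ℝ K).ncard := (ncard_pos hV).2 hne
  have h5 : Fintype.card (extremePoints ℝ K) = ((extremePoints ℝ K).ncard - 1) + 1 := by
    rw [← Nat.card_eq_fintype_card, Nat.card_coe_set_eq]
    omega
  have h6 := finrank_vectorSpan_range_le ℝ
    (fun p : extremePoints ℝ K => (p : EuclideanSpace ℝ (Fin N))) h5
  rw [Subtype.range_coe, h1, finrank_top, finrank_euclideanSpace_fin] at h6
  omega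

theorem pedge_symm {a b : EuclideanSpace ℝ (Fin N)} (h : PEdge K a b) : PEdge K b a := by
  obtain ⟨hne, n, m, h1, h2⟩ := h
  exact ⟨hne.symm, n, m, h1, by rw [h2, segment_symm]⟩

theorem deg_ge (hD : JDeg) (hK : IsCompact K) (hc : Convex ℝ K)
    (hV : (extremePoints ℝ K).Finite) (hint : (interior K).Nonempty)
    {p : EuclideanSpace ℝ (Fin N)} (hp : p ∈ extremePoints ℝ K) :
    {q | PEdge K p q}.Finite ∧ N ≤ {q | PEdge K p q}.ncard := by
  obtain ⟨h1, h2⟩ := hD N K hK hc hV p 0 0 hp (fun r _ => by rw [inner_zero_left])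
    (by rw [inner_zero_left])
  refine ⟨h1, ?_⟩
  have e1 : {r | r ∈ K ∧ ⟪(0 : EuclideanSpace ℝ (Fin N)), r⟫_ℝ = 0} = K := by
    ext r
    simp only [mem_ofPred_eq, inner_zero_left, and_true]
  have e2 : {q | PEdge K p q ∧ ⟪(0 : EuclideanSpace ℝ (Fin N)), q⟫_ℝ = 0} = {q | PEdge K p q} := by
    ext r
    simp only [mem_ofPred_eq, inner_zero_left, and_true]
  rw [e1, e2, vec_top hint, finrank_top, finrank_euclideanSpace_fin] at h2
  exact h2

end convex

variable {M : Type u} [TopologicalSpace M] {N : ℕ} {f : M → EuclideanSpace ℝ (Fin N)}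

theorem pedge_ext {a b : EuclideanSpace ℝ (Fin N)} (h : PEdge (Hul f) a b) :
    a ∈ extremePoints ℝ (Hul f) := edge_ext (f := f) h

/-- the two orientations of an edge -/
noncomputable def ends (e : EdgeT f) :
    {ab : EuclideanSpace ℝ (Fin N) × EuclideanSpace ℝ (Fin N) //
      Edge f ab.1 ab.2 ∧ e.1 = segment ℝ ab.1 ab.2} :=
  ⟨(e.2.choose, e.2.choose_spec.choose), e.2.choose_spec.choose_spec⟩

/-- pairs of an extreme point and an end of an edge at this point -/
abbrev Flag (f : M → EuclideanSpace ℝ (Fin N)) : Type :=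
  Σ p : extremePoints ℝ (Hul f), {q | PEdge (Hul f) p.1 q}

/-- the oriented edge -/
noncomputable def flag (x : EdgeT f × Bool) : Flag f :=
  match x.2 with
  | true => ⟨⟨(ends x.1).1.1, edge_ext (ends x.1).2.1⟩, ⟨(ends x.1).1.2, (ends x.1).2.1⟩⟩
  | false => ⟨⟨(ends x.1).1.2, edge_ext (ends x.1).2.1.symm⟩,
      ⟨(ends x.1).1.1, (ends x.1).2.1.symm⟩⟩

theorem flag_seg (x : EdgeT f × Bool) :
    x.1.1 = segment ℝ (flag x).1.1 (flag x).2.1 := by
  obtain ⟨e, b⟩ := x
  cases b
  · show e.1 = segment ℝ (ends e).1.2 (ends e).1.1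
    rw [segment_symm]
    exact (ends e).2.2
  · exact (ends e).2.2

theorem flag_inj : Function.Injective (flag (f := f)) := by
  intro x y h
  have h1 : x.1 = y.1 := by
    apply Subtype.ext
    rw [flag_seg x, flag_seg y, h]
  obtain ⟨e, b⟩ := x
  obtain ⟨e', b'⟩ := y
  simp only at h1
  subst h1
  have hne := (ends e).2.1.1
  have h2 : (flag (e, b)).1.1 = (flag (e, b')).1.1 := by rw [h]
  cases b <;> cases b'
  · rfl
  · exact absurd h2.symm hne
  · exact absurd h2 hne
  · rfl

omit [TopologicalSpace M] in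
theorem flag_ext {x y : Flag f} (h1 : x.1.1 = y.1.1) (h2 : x.2.1 = y.2.1) : x = y := by
  obtain ⟨⟨p, hp⟩, ⟨q, hq⟩⟩ := x
  obtain ⟨⟨p', hp'⟩, ⟨q', hq'⟩⟩ := y
  simp only at h1 h2
  subst h1
  subst h2
  rfl

theorem flag_surj : Function.Surjective (flag (f := f)) := by
  rintro ⟨⟨p, hp⟩, ⟨q, hq⟩⟩
  have hq' : Edge f p q := hq
  let e : EdgeT f := ⟨segment ℝ p q, p, q, hq', rfl⟩
  have h := (ends e).2.2
  have h' : segment ℝ p q = segment ℝ (ends e).1.1 (ends e).1.2 := h
  rcases edge_eq_of_segment_eq h' with ⟨h1, h2⟩ | ⟨h1, h2⟩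
  · exact ⟨(e, true), flag_ext h1.symm h2.symm⟩
  · exact ⟨(e, false), flag_ext h1.symm h2.symm⟩

/-- PB-Q2: the number of edges of the hull -/
theorem card (hD : JDeg) : JCard.{u} := by
  intro M _ _ _ _ N f S hV
  have hK : IsCompact (Hul f) := hul_compact S.cont
  have hc : Convex ℝ (Hul f) := convex_convexHull ℝ _
  have hint : (interior (Hul f)).Nonempty := hul_interior S
  have hN := card_ext hK hc hV hint
  have : Fintype (extremePoints ℝ (Hul f)) := hV.fintype
  have hfin : ∀ p : extremePoints ℝ (Hul f), Finite {q | PEdge (Hul f) p.1 q} := fun p =>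
    (deg_ge hD hK hc hV hint p.2).1.to_subtype
  have hbij : Function.Bijective (flag (f := f)) := ⟨flag_inj, flag_surj⟩
  have hfl : Finite (Flag f) := inferInstance
  have hfp : Finite (EdgeT f × Bool) := Finite.of_injective _ (flag_inj (f := f))
  have hfe : Finite (EdgeT f) := Finite.of_injective (fun e : EdgeT f => (e, true))
    (fun a b h => by simpa using h)
  have hcardV : Fintype.card (extremePoints ℝ (Hul f)) = (extremePoints ℝ (Hul f)).ncard := by
    rw [← Nat.card_eq_fintype_card, Nat.card_coe_set_eq]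
  have hsum : 2 * Nat.card (EdgeT f) =
      ∑ p : extremePoints ℝ (Hul f), {q | PEdge (Hul f) p.1 q}.ncard := by
    have h1 := Nat.card_congr (Equiv.ofBijective _ hbij)
    rw [Nat.card_prod, Nat.card_sigma] at h1
    have h2 : Nat.card Bool = 2 := by
      rw [Nat.card_eq_fintype_card]
      exact Fintype.card_bool
    rw [h2, mul_comm] at h1
    rw [h1]
    exact Finset.sum_congr rfl (fun p _ => Nat.card_coe_set_eq _)
  have hge : ∀ p : extremePoints ℝ (Hul f), N ≤ {q | PEdge (Hul f) p.1 q}.ncard := fun p =>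
    (deg_ge hD hK hc hV hint p.2).2
  have hle : ∀ p : extremePoints ℝ (Hul f), {q | PEdge (Hul f) p.1 q}.ncard ≤
      (extremePoints ℝ (Hul f)).ncard - 1 := by
    intro p
    rw [← ncard_sdiff_singleton_of_mem p.2]
    refine ncard_le_ncard ?_ (hV.subset sdiff_subset)
    intro q hq
    have hq' : PEdge (Hul f) p.1 q := hq
    exact ⟨pedge_ext (pedge_symm hq'), fun h => hq'.1 h.symm⟩
  have hconst : ∀ c : ℕ, ∑ _p : extremePoints ℝ (Hul f), c =
      (extremePoints ℝ (Hul f)).ncard * c := by
    intro c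
    rw [Finset.sum_const, Finset.card_univ, hcardV, smul_eq_mul]
  refine ⟨hfe, hN, ?_, ?_, ?_⟩
  · rw [hsum, mul_comm, ← hconst]
    exact Finset.sum_le_sum (fun p _ => hge p)
  · rw [hsum, ← hconst]
    exact Finset.sum_le_sum (fun p _ => hle p)
  · intro h p hp
    rw [hsum, mul_comm, ← hconst] at h
    have h1 := (Finset.sum_eq_sum_iff_of_le (fun p _ => hge p)).1 h.symm ⟨p, hp⟩
      (Finset.mem_univ _)
    exact h1.ge

end Pool.Agent.Y523.PB
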