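import Pool.Agent.Y523.PB.Card

/-!
# PB-Q3 (`JFacet`): the fat graph of a facet

Job 1023 of project PB (owner helper217).
-/

set_option autoImplicit false

universe u

namespace Pool.Agent.Y523.PB

open Set Topology Metric Filter
open Pool.Agent.Helper775.Surf Pool.Agent.Helper775.Clo
open Pool.Agent.Y217.PB
open scoped InnerProductSpace

section convex

variable {N : ℕ} {K : Set (EuclideanSpace ℝ (Fin N))}

theorem span_card {S : Set (EuclideanSpace ℝ (Fin N))} (hS : S.Finite) (hne : S.Nonempty) :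
    Module.finrank ℝ (vectorSpan ℝ S) + 1 ≤ S.ncard := by
  have : Fintype S := hS.fintype
  have h4 : 0 < S.ncard := (ncard_pos hS).2 hne
  have h5 : Fintype.card S = (S.ncard - 1) + 1 := by
    rw [← Nat.card_eq_fintype_card, Nat.card_coe_set_eq]
    omega
  have h6 := finrank_vectorSpan_range_le ℝ
    (fun p : S => (p : EuclideanSpace ℝ (Fin N))) h5
  rw [Subtype.range_coe] at h6
  omega

theorem vec_hull (S : Set (EuclideanSpace ℝ (Fin N))) :
    vectorSpan ℝ (convexHull ℝ S) = vectorSpan ℝ S := by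
  rw [← direction_affineSpan, affineSpan_convexHull, direction_affineSpan]

theorem face_hull (hK : IsCompact K) (hc : Convex ℝ K) (hV : (extremePoints ℝ K).Finite)
    {n : EuclideanSpace ℝ (Fin N)} {m : ℝ} (hle : ∀ r ∈ K, ⟪n, r⟫_ℝ ≤ m)
    (hne : ∃ r ∈ K, ⟪n, r⟫_ℝ = m) :
    convexHull ℝ (extremePoints ℝ K ∩ {r | ⟪n, r⟫_ℝ = m}) = {r | r ∈ K ∧ ⟪n, r⟫_ℝ = m} := by
  have hF : Fc K {r | r ∈ K ∧ ⟪n, r⟫_ℝ = m} := Fc.step K n m Fc.top hle hne
  have hFK := fc_compact hK hF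
  have hFc := fc_convex hc hF
  have hFe := fc_extreme hF
  have h1 : extremePoints ℝ {r | r ∈ K ∧ ⟪n, r⟫_ℝ = m} ⊆
      extremePoints ℝ K ∩ {r | ⟪n, r⟫_ℝ = m} := fun r hr =>
    ⟨hFe.extremePoints_subset_extremePoints hr, hr.1.2⟩
  apply Subset.antisymm
  · exact convexHull_min (fun r hr => ⟨hr.1.1, hr.2⟩) hFc
  · have h2 := hull_ext hFK hFc (hV.subset (h1.trans inter_subset_left))
    calc {r | r ∈ K ∧ ⟪n, r⟫_ℝ = m} = convexHull ℝ (extremePoints ℝ {r | r ∈ K ∧ ⟪n, r⟫_ℝ = m}) :=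
          h2.symm
      _ ⊆ _ := convexHull_mono h1

theorem face_card (hK : IsCompact K) (hc : Convex ℝ K) (hV : (extremePoints ℝ K).Finite)
    {n : EuclideanSpace ℝ (Fin N)} {m : ℝ} (hle : ∀ r ∈ K, ⟪n, r⟫_ℝ ≤ m)
    (hne : ∃ r ∈ K, ⟪n, r⟫_ℝ = m) :
    Module.finrank ℝ (vectorSpan ℝ {r | r ∈ K ∧ ⟪n, r⟫_ℝ = m}) + 1 ≤
      (extremePoints ℝ K ∩ {r | ⟪n, r⟫_ℝ = m}).ncard := by
  have h := face_hull hK hc hV hle hne
  rw [← h, vec_hull]
  apply span_card (hV.subset inter_subset_left)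
  rw [← convexHull_nonempty_iff (𝕜 := ℝ), h]
  exact hne

theorem ev_lt {a b : ℝ} (c d : ℝ) (h : a < b) :
    ∀ᶠ ε in 𝓝[>] (0 : ℝ), a + ε * c < b + ε * d := by
  have h1 : ContinuousAt (fun ε : ℝ => a + ε * c) 0 := by fun_prop
  have h2 : ContinuousAt (fun ε : ℝ => b + ε * d) 0 := by fun_prop
  exact (h1.eventually_lt h2 (by simpa using h)).filter_mono nhdsWithin_le_nhds

/-- a functional close to `-n` with a unique maximiser -/
theorem pert {V : Set (EuclideanSpace ℝ (Fin N))} (hV : V.Finite)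
    (n : EuclideanSpace ℝ (Fin N)) (m : ℝ) (hne : ∃ v ∈ V, ⟪n, v⟫_ℝ < m) :
    ∃ u r₀ : EuclideanSpace ℝ (Fin N), r₀ ∈ V ∧ ⟪n, r₀⟫_ℝ < m ∧
      (∀ v ∈ V, v ≠ r₀ → ⟪u, v⟫_ℝ < ⟪u, r₀⟫_ℝ) ∧
      ∀ v ∈ V, ∀ q ∈ V, ⟪n, v⟫_ℝ < m → ⟪n, q⟫_ℝ = m → ⟪u, q⟫_ℝ < ⟪u, v⟫_ℝ := by
  obtain ⟨v₀, hv₀, hv₀m⟩ := hne
  obtain ⟨a, ha, hmin⟩ := Set.exists_min_image V (fun v => ⟪n, v⟫_ℝ) hV ⟨v₀, hv₀⟩
  obtain ⟨r₀, hr₀, hmax⟩ := Set.exists_max_image (V ∩ {v | ⟪n, v⟫_ℝ = ⟪n, a⟫_ℝ}) (fun v => ‖v‖)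
    (hV.subset inter_subset_left) ⟨a, ha, rfl⟩
  have hr₀n : ⟪n, r₀⟫_ℝ = ⟪n, a⟫_ℝ := hr₀.2
  have h1 : ∀ v ∈ V, ∀ᶠ ε in 𝓝[>] (0 : ℝ), v ≠ r₀ →
      -⟪n, v⟫_ℝ + ε * ⟪r₀, v⟫_ℝ < -⟪n, r₀⟫_ℝ + ε * ⟪r₀, r₀⟫_ℝ := by
    intro v hv
    by_cases hvn : ⟪n, v⟫_ℝ = ⟪n, a⟫_ℝ
    · filter_upwards [self_mem_nhdsWithin] with ε hε hvr
      have hε' : 0 < ε := hε
      have h2 : ‖v‖ ≤ ‖r₀‖ := hmax v ⟨hv, hvn⟩
      have h3 : 0 < ‖v - r₀‖ := norm_pos_iff.2 (sub_ne_zero.2 hvr)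
      have h4 := norm_sub_sq_real v r₀
      have h5 : ‖v‖ ^ 2 ≤ ‖r₀‖ ^ 2 := pow_le_pow_left₀ (norm_nonneg v) h2 2
      have h6 : 0 < ‖v - r₀‖ ^ 2 := by positivity
      have h7 : ⟪r₀, v⟫_ℝ < ⟪r₀, r₀⟫_ℝ := by
        rw [real_inner_self_eq_norm_sq, real_inner_comm]
        linarith
      have h8 : ε * ⟪r₀, v⟫_ℝ < ε * ⟪r₀, r₀⟫_ℝ := mul_lt_mul_of_pos_left h7 hε'
      rw [hvn, hr₀n]
      linarith
    · have h2 : ⟪n, a⟫_ℝ < ⟪n, v⟫_ℝ := lt_of_le_of_ne (hmin v hv) (Ne.symm hvn)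
      have h3 : -⟪n, v⟫_ℝ < -⟪n, r₀⟫_ℝ := by rw [hr₀n]; linarith
      filter_upwards [ev_lt ⟪r₀, v⟫_ℝ ⟪r₀, r₀⟫_ℝ h3] with ε hε _
      exact hε
  have h2 : ∀ v ∈ V, ∀ᶠ ε in 𝓝[>] (0 : ℝ), ∀ q ∈ V, ⟪n, v⟫_ℝ < m → ⟪n, q⟫_ℝ = m →
      -⟪n, q⟫_ℝ + ε * ⟪r₀, q⟫_ℝ < -⟪n, v⟫_ℝ + ε * ⟪r₀, v⟫_ℝ := by
    intro v hv
    rw [Filter.eventually_all_finite hV]
    intro q hq
    by_cases hc : ⟪n, v⟫_ℝ < m ∧ ⟪n, q⟫_ℝ = m
    · have h3 : -⟪n, q⟫_ℝ < -⟪n, v⟫_ℝ := by rw [hc.2]; linarith [hc.1]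
      filter_upwards [ev_lt ⟪r₀, q⟫_ℝ ⟪r₀, v⟫_ℝ h3] with ε hε _ _
      exact hε
    · exact Filter.Eventually.of_forall (fun ε h5 h6 => absurd ⟨h5, h6⟩ hc)
  rw [← Filter.eventually_all_finite hV] at h1 h2
  obtain ⟨ε, hε1, hε2⟩ := (h1.and h2).exists
  refine ⟨-n + ε • r₀, r₀, hr₀.1, ?_, ?_, ?_⟩
  · rw [hr₀n]
    exact (hmin v₀ hv₀).trans_lt hv₀m
  · intro v hv hvr
    have := hε1 v hv hvr
    simpa only [inner_add_left, inner_neg_left, real_inner_smul_left] using this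
  · intro v hv q hq hvm hqm
    have := hε2 v hv q hq hvm hqm
    simpa only [inner_add_left, inner_neg_left, real_inner_smul_left] using this

end convex

theorem isArc_symm {M : Type u} [TopologicalSpace M] {A : Set M} {p q : M} (h : IsArc A p q) :
    IsArc A q p := by
  obtain ⟨hcl, hp, hq, g, hg, hinj, him, h0, h1⟩ := h
  refine ⟨hcl, hq, hp, fun x => 1 - g x, by fun_prop, ?_, ?_, ?_, ?_⟩
  · intro x hx y hy hxy
    have hxy' : 1 - g x = 1 - g y := hxy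
    exact hinj hx hy (by linarith)
  · ext t
    constructor
    · rintro ⟨x, hx, rfl⟩
      have h2 : g x ∈ Icc (0 : ℝ) 1 := him ▸ mem_image_of_mem g hx
      exact ⟨by linarith [h2.2], by linarith [h2.1]⟩
    · intro ht
      have h2 : 1 - t ∈ g '' A := by
        rw [him]
        exact ⟨by linarith [ht.2], by linarith [ht.1]⟩
      obtain ⟨x, hx, hxt⟩ := h2
      exact ⟨x, hx, by show 1 - g x = t; rw [hxt]; ring⟩
  · show 1 - g q = 0
    rw [h1]; ring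
  · show 1 - g p = 1
    rw [h0]; ring

section graph

variable {M : Type u} [TopologicalSpace M] {N : ℕ} {f : M → EuclideanSpace ℝ (Fin N)}
  {G : FGraph M (extremePoints ℝ (Hul f)) (EdgeT f)}

/-- the points of an edge over an extreme point -/
theorem meet (H : HGraph f G) {k : EdgeT f} {i : extremePoints ℝ (Hul f)} {x : M}
    (hx : x ∈ G.A k) (hi : f x = i.1) :
    (x = G.p0 k ∧ i = G.i0 k) ∨ (x = G.p1 k ∧ i = G.i1 k) := by
  have h1 : x ∈ G.Z i := by rw [H.hZ]; exact hi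
  rcases H.good.inter k i x hx h1 with h | h
  · left
    refine ⟨h, Subtype.ext ?_⟩
    rw [← hi, h, H.h0]
  · right
    refine ⟨h, Subtype.ext ?_⟩
    rw [← hi, h, H.h1]

/-- an edge of the hull as an edge of the graph -/
theorem edge_of (H : HGraph f G) {r q : extremePoints ℝ (Hul f)} (h : PEdge (Hul f) r.1 q.1) :
    ∃ (k : EdgeT f) (x y : M), IsArc (G.A k) x y ∧ f x = r.1 ∧ f y = q.1 ∧
      ((G.i0 k = r ∧ G.i1 k = q ∧ G.p0 k = x ∧ G.p1 k = y) ∨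
        (G.i0 k = q ∧ G.i1 k = r ∧ G.p0 k = y ∧ G.p1 k = x)) := by
  have h' : Edge f r.1 q.1 := h
  let k : EdgeT f := ⟨segment ℝ r.1 q.1, r.1, q.1, h', rfl⟩
  have h1 : segment ℝ r.1 q.1 = segment ℝ (G.i0 k).1 (G.i1 k).1 := H.seg k
  rcases edge_eq_of_segment_eq h1 with ⟨e1, e2⟩ | ⟨e1, e2⟩
  · refine ⟨k, G.p0 k, G.p1 k, H.good.arc k, ?_, ?_, Or.inl ⟨?_, ?_, rfl, rfl⟩⟩
    · rw [H.h0, e1]
    · rw [H.h1, e2]
    · exact Subtype.ext e1.symm
    · exact Subtype.ext e2.symm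
  · refine ⟨k, G.p1 k, G.p0 k, isArc_symm (H.good.arc k), ?_, ?_, Or.inr ⟨?_, ?_, rfl, rfl⟩⟩
    · rw [H.h1, e1]
    · rw [H.h0, e2]
    · exact Subtype.ext e2.symm
    · exact Subtype.ext e1.symm

/-- the union of vertices and edges -/
def Sub (G : FGraph M (extremePoints ℝ (Hul f)) (EdgeT f)) (W : Set (extremePoints ℝ (Hul f)))
    (T : Set (EdgeT f)) : Set M := (⋃ i ∈ W, G.Z i) ∪ ⋃ k ∈ T, G.A k

omit [TopologicalSpace M] in
theorem mem_sub {W : Set (extremePoints ℝ (Hul f))} {T : Set (EdgeT f)} {x : M} :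
    x ∈ Sub G W T ↔ (∃ i ∈ W, x ∈ G.Z i) ∨ ∃ k ∈ T, x ∈ G.A k := by
  simp only [Sub, mem_union, mem_iUnion, exists_prop]

/-- a fat vertex can be enlarged by an edge -/
theorem grow [CompactSpace M] [T2Space M] [TopologicalSpace.MetrizableSpace M]
    (hU : JUnion.{u}) (hA : JArc.{u}) (H : HGraph f G) {W : Set (extremePoints ℝ (Hul f))}
    {T : Set (EdgeT f)} (hT : ∀ k ∈ T, G.i0 k ∈ W ∧ G.i1 k ∈ W) (hfat : IsFat (Sub G W T))
    {r q : extremePoints ℝ (Hul f)} (hr : r ∉ W) (hq : q ∈ W) (h : PEdge (Hul f) r.1 q.1) :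
    ∃ T' : Set (EdgeT f), (∀ k ∈ T', G.i0 k ∈ insert r W ∧ G.i1 k ∈ insert r W) ∧
      IsFat (Sub G (insert r W) T') := by
  obtain ⟨k, x, y, harc, hx, hy, hk⟩ := edge_of H h
  have hkT : k ∉ T := by
    intro hkT
    have h1 := hT k hkT
    rcases hk with ⟨e1, -, -, -⟩ | ⟨-, e2, -, -⟩
    · exact hr (e1 ▸ h1.1)
    · exact hr (e2 ▸ h1.2)
  have hkk : ∀ i : extremePoints ℝ (Hul f), ∀ z ∈ G.A k, f z = i.1 →
      (z = x ∧ i = r) ∨ (z = y ∧ i = q) := by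
    intro i z hz hzi
    rcases meet H hz hzi with ⟨e, e'⟩ | ⟨e, e'⟩ <;>
      rcases hk with ⟨e1, e2, e3, e4⟩ | ⟨e1, e2, e3, e4⟩
    · exact Or.inl ⟨e.trans e3, e'.trans e1⟩
    · exact Or.inr ⟨e.trans e3, e'.trans e1⟩
    · exact Or.inr ⟨e.trans e4, e'.trans e2⟩
    · exact Or.inl ⟨e.trans e4, e'.trans e2⟩
  have hZA : G.Z r ⊆ G.A k := by
    intro z hz
    rw [H.hZ] at hz
    rw [H.hA, mem_ofPred_eq]
    have hz' : f z = r.1 := hz
    rw [hz', H.seg k]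
    rcases hk with ⟨e1, -, -, -⟩ | ⟨-, e2, -, -⟩
    · rw [← e1]; exact left_mem_segment ℝ _ _
    · rw [← e2]; exact right_mem_segment ℝ _ _
  have hset : Sub G (insert r W) (insert k T) = Sub G W T ∪ G.A k := by
    ext z
    rw [mem_union, mem_sub, mem_sub]
    constructor
    · rintro (⟨i, hi, hz⟩ | ⟨l, hl, hz⟩)
      · rcases hi with rfl | hi
        · exact Or.inr (hZA hz)
        · exact Or.inl (Or.inl ⟨i, hi, hz⟩)
      · rcases hl with rfl | hl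
        · exact Or.inr hz
        · exact Or.inl (Or.inr ⟨l, hl, hz⟩)
    · rintro ((⟨i, hi, hz⟩ | ⟨l, hl, hz⟩) | hz)
      · exact Or.inl ⟨i, Or.inr hi, hz⟩
      · exact Or.inr ⟨l, Or.inr hl, hz⟩
      · exact Or.inr ⟨k, Or.inl rfl, hz⟩
  obtain ⟨-, hcon, hacy, -⟩ := hA M (G.A k) x y harc
  have hyW : y ∈ Sub G W T := by
    rw [mem_sub]
    left
    refine ⟨q, hq, ?_⟩
    rw [H.hZ]; exact hy
  have hint : Sub G W T ∩ G.A k = {y} := by
    apply Subset.antisymm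
    · rintro z ⟨hz, hzk⟩
      rw [mem_sub] at hz
      have key : ∃ i ∈ W, f z = i.1 := by
        rcases hz with ⟨i, hi, hz⟩ | ⟨l, hl, hz⟩
        · refine ⟨i, hi, ?_⟩
          rw [H.hZ] at hz
          exact hz
        · have hne : k ≠ l := fun h => hkT (h ▸ hl)
          obtain ⟨i, hi⟩ := H.good.ee k l z hne hzk hz
          rw [H.hZ] at hi
          have hi' : f z = i.1 := hi
          refine ⟨i, ?_, hi'⟩
          rcases meet H hz hi' with ⟨-, e⟩ | ⟨-, e⟩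
          · rw [e]; exact (hT l hl).1
          · rw [e]; exact (hT l hl).2
      obtain ⟨i, hi, hzi⟩ := key
      rcases hkk i z hzk hzi with ⟨-, e⟩ | ⟨e, -⟩
      · exact absurd (e ▸ hi) hr
      · exact e
    · rintro z rfl
      exact ⟨hyW, harc.q_mem⟩
  refine ⟨insert k T, ?_, ?_⟩
  · rintro l (rfl | hl)
    · rcases hk with ⟨e1, e2, -, -⟩ | ⟨e1, e2, -, -⟩
      · rw [e1, e2]; exact ⟨Or.inl rfl, Or.inr hq⟩
      · rw [e1, e2]; exact ⟨Or.inr hq, Or.inl rfl⟩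
    · exact ⟨Or.inr (hT l hl).1, Or.inr (hT l hl).2⟩
  · rw [hset]
    refine ⟨hfat.closed.union harc.closed, hfat.ne.mono subset_union_left, ?_, ?_⟩
    · exact hfat.conn.union y hyW harc.q_mem hcon
    · apply hU M _ _ hfat.closed harc.closed hfat.acyc hacy
      rw [hint]
      exact isPreconnected_singleton

/-- the fat tree -/
theorem tree [CompactSpace M] [T2Space M] [TopologicalSpace.MetrizableSpace M]
    (hU : JUnion.{u}) (hA : JArc.{u}) (H : HGraph f G) [Finite (extremePoints ℝ (Hul f))]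
    (W : Set (extremePoints ℝ (Hul f))) (u : EuclideanSpace ℝ (Fin N))
    {r₀ : extremePoints ℝ (Hul f)} (hr₀ : r₀ ∈ W)
    (hnext : ∀ r ∈ W, r ≠ r₀ → ∃ q ∈ W, PEdge (Hul f) r.1 q.1 ∧ ⟪u, r.1⟫_ℝ < ⟪u, q.1⟫_ℝ) :
    ∃ T : Set (EdgeT f), (∀ k ∈ T, G.i0 k ∈ W ∧ G.i1 k ∈ W) ∧ IsFat (Sub G W T) := by
  let 𝒮 : Set (Set (extremePoints ℝ (Hul f))) := {S | r₀ ∈ S ∧ S ⊆ W ∧
    ∃ T : Set (EdgeT f), (∀ k ∈ T, G.i0 k ∈ S ∧ G.i1 k ∈ S) ∧ IsFat (Sub G S T)}
  have h𝒮 : 𝒮.Finite := Set.toFinite _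
  have hne : 𝒮.Nonempty := by
    refine ⟨{r₀}, rfl, singleton_subset_iff.2 hr₀, ∅, fun k hk => absurd hk (notMem_empty k), ?_⟩
    have e : Sub G {r₀} ∅ = G.Z r₀ := by
      ext z
      rw [mem_sub]
      constructor
      · rintro (⟨i, rfl, hz⟩ | ⟨l, hl, hz⟩)
        · exact hz
        · exact absurd hl (notMem_empty l)
      · intro hz
        exact Or.inl ⟨r₀, rfl, hz⟩
    rw [e]
    exact H.good.fat r₀
  obtain ⟨S, hS⟩ := h𝒮.exists_maximal hne
  obtain ⟨hr₀S, hSW, T, hT, hfat⟩ := hS.prop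
  have hWS : S = W := by
    by_contra hcon
    have hne2 : (W \ S).Nonempty := by
      rw [nonempty_iff_ne_empty]
      intro h
      exact hcon (Subset.antisymm hSW (sdiff_eq_empty.1 h))
    obtain ⟨r, hr, hmax⟩ := Set.exists_max_image (W \ S)
      (fun r : extremePoints ℝ (Hul f) => ⟪u, r.1⟫_ℝ) (Set.toFinite _) hne2
    have hrr₀ : r ≠ r₀ := fun h => hr.2 (h ▸ hr₀S)
    obtain ⟨q, hq, hpe, hlt⟩ := hnext r hr.1 hrr₀
    have hqS : q ∈ S := by
      by_contra hqS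
      have := hmax q ⟨hq, hqS⟩
      exact absurd hlt (not_lt.2 this)
    obtain ⟨T', hT', hfat'⟩ := grow hU hA H hT hfat hr.2 hqS hpe
    have hin : insert r S ∈ 𝒮 := ⟨Or.inr hr₀S, insert_subset hr.1 hSW, T', hT', hfat'⟩
    have := hS.le_of_ge hin (subset_insert r S)
    exact hr.2 (this (mem_insert r S))
  subst hWS
  exact ⟨T, hT, hfat⟩

end graph

/-- PB-Q3: the fat graph of a facet -/
theorem facet (hI : JInc) (hD : JDeg) (hG : JGraph.{u}) (hU : JUnion.{u}) (hA : JArc.{u}) :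
    JFacet.{u} := by
  intro M _ _ _ _ _ _ N f S hV hN n m hn hle hrank
  have hK : IsCompact (Hul f) := hul_compact S.cont
  have hc : Convex ℝ (Hul f) := convex_convexHull ℝ _
  have hint : (interior (Hul f)).Nonempty := hul_interior S
  obtain ⟨G, H⟩ := hG M N f S hV
  have hVfin : Finite (extremePoints ℝ (Hul f)) := hV.to_subtype
  -- the face is nonempty
  have hFne : ∃ r ∈ Hul f, ⟪n, r⟫_ℝ = m := by
    by_contra hcon
    have e : {r | r ∈ Hul f ∧ ⟪n, r⟫_ℝ = m} = ∅ := by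
      rw [eq_empty_iff_forall_notMem]
      intro r hr
      exact hcon ⟨r, hr.1, hr.2⟩
    rw [e, vectorSpan_empty, finrank_bot] at hrank
    omega
  -- there are points off the facet
  have hoff : ∃ r ∈ Hul f, ⟪n, r⟫_ℝ < m := by
    by_contra hcon
    push Not at hcon
    have e : ∀ r ∈ Hul f, ⟪n, r⟫_ℝ = m := fun r hr => le_antisymm (hle r hr) (hcon r hr)
    obtain ⟨x, hx⟩ := S.sub n m hn
    exact hx (e _ (subset_convexHull ℝ _ (mem_range_self x)))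
  have hoffV : ∃ v ∈ extremePoints ℝ (Hul f), ⟪n, v⟫_ℝ < m := by
    by_contra hcon
    push Not at hcon
    obtain ⟨r, hr, hrm⟩ := hoff
    have hsub : extremePoints ℝ (Hul f) ⊆ {r | m ≤ ⟪n, r⟫_ℝ} := fun v hv => hcon v hv
    have hcv : Convex ℝ {r : EuclideanSpace ℝ (Fin N) | m ≤ ⟪n, r⟫_ℝ} := by
      intro a ha b hb s t hs ht hst
      have ha' : m ≤ ⟪n, a⟫_ℝ := ha
      have hb' : m ≤ ⟪n, b⟫_ℝ := hb
      show m ≤ ⟪n, s • a + t • b⟫_ℝ
      rw [inner_add_right, real_inner_smul_right, real_inner_smul_right]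
      calc m = s * m + t * m := by rw [← add_mul, hst, one_mul]
        _ ≤ _ := add_le_add (mul_le_mul_of_nonneg_left ha' hs) (mul_le_mul_of_nonneg_left hb' ht)
    have h1 := convexHull_min hsub hcv
    rw [hull_ext hK hc hV] at h1
    exact absurd hrm (not_lt.2 (h1 hr))
  obtain ⟨u, r₀, hr₀V, hr₀m, hur₀, hun⟩ := pert hV n m hoffV
  -- the fat vertex
  let W : Set (extremePoints ℝ (Hul f)) := {v | ⟪n, v.1⟫_ℝ < m}
  have hnext : ∀ r ∈ W, r ≠ ⟨r₀, hr₀V⟩ → ∃ q ∈ W, PEdge (Hul f) r.1 q.1 ∧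
      ⟪u, r.1⟫_ℝ < ⟪u, q.1⟫_ℝ := by
    intro r hr hrr₀
    have hne : r.1 ≠ r₀ := fun h => hrr₀ (Subtype.ext h)
    obtain ⟨q, hq, hlt⟩ := hI N (Hul f) hK hc hV r.1 u r.2 ⟨r₀, hr₀V.1, hur₀ r.1 r.2 hne⟩
    have hqV : q ∈ extremePoints ℝ (Hul f) := pedge_ext (pedge_symm hq)
    refine ⟨⟨q, hqV⟩, ?_, hq, hlt⟩
    show ⟪n, q⟫_ℝ < m
    by_contra hcon
    have hqm : ⟪n, q⟫_ℝ = m := le_antisymm (hle q hqV.1) (not_lt.1 hcon)
    exact absurd (hun r.1 r.2 q hqV hr hqm) (not_lt.2 hlt.le)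
  obtain ⟨T, hT, hfat⟩ := tree hU hA H W u (r₀ := ⟨r₀, hr₀V⟩) hr₀m hnext
  -- the fat vertex is off the facet
  have hZ0 : ∀ x ∈ Sub G W T, ⟪n, f x⟫_ℝ < m := by
    intro x hx
    rw [mem_sub] at hx
    rcases hx with ⟨i, hi, hx⟩ | ⟨k, hk, hx⟩
    · rw [H.hZ] at hx
      have hx' : f x = i.1 := hx
      rw [hx']
      exact hi
    · rw [H.hA] at hx
      have hx' : f x ∈ k.1 := hx
      rw [H.seg k] at hx'
      obtain ⟨a, b, ha, hb, hab, hx'⟩ := hx'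
      have h0 : ⟪n, (G.i0 k).1⟫_ℝ < m := (hT k hk).1
      have h1 : ⟪n, (G.i1 k).1⟫_ℝ < m := (hT k hk).2
      rw [← hx', inner_add_right, real_inner_smul_right, real_inner_smul_right]
      rcases ha.eq_or_lt with rfl | ha'
      · have hb1 : b = 1 := by linarith
        rw [hb1]; linarith
      · have h2 : a * ⟪n, (G.i0 k).1⟫_ℝ < a * m := mul_lt_mul_of_pos_left h0 ha'
        have h3 : b * ⟪n, (G.i1 k).1⟫_ℝ ≤ b * m := mul_le_mul_of_nonneg_left h1.le hb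
        have h4 : a * m + b * m = m := by rw [← add_mul, hab, one_mul]
        linarith
  -- the spokes
  have hspoke : ∀ q : {v : extremePoints ℝ (Hul f) // ⟪n, v.1⟫_ℝ = m},
      ∃ (k : EdgeT f) (q' : extremePoints ℝ (Hul f)) (x y : M), ⟪n, q'.1⟫_ℝ < m ∧
      IsArc (G.A k) x y ∧ f x = q.1.1 ∧ f y = q'.1 ∧
      ((G.i0 k = q.1 ∧ G.i1 k = q' ∧ G.p0 k = x ∧ G.p1 k = y) ∨
        (G.i0 k = q' ∧ G.i1 k = q.1 ∧ G.p0 k = y ∧ G.p1 k = x)) := by
    rintro ⟨q, hq⟩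
    obtain ⟨r, hr, hrm⟩ := hoff
    obtain ⟨q', hq', hlt⟩ := hI N (Hul f) hK hc hV q.1 (-n) q.2
      ⟨r, hr, by rw [inner_neg_left, inner_neg_left, hq]; linarith⟩
    have hqV : q' ∈ extremePoints ℝ (Hul f) := pedge_ext (pedge_symm hq')
    rw [inner_neg_left, inner_neg_left, hq] at hlt
    obtain ⟨k, x, y, h1, h2, h3, h4⟩ := edge_of H (r := q) (q := ⟨q', hqV⟩) hq'
    exact ⟨k, ⟨q', hqV⟩, x, y, by show ⟪n, q'⟫_ℝ < m; linarith, h1, h2, h3, h4⟩
  choose sk sq sx sy hsm hsarc hsx hsy hsk using hspoke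
  -- points of a spoke over extreme points
  have hsmeet : ∀ (q : {v : extremePoints ℝ (Hul f) // ⟪n, v.1⟫_ℝ = m}) (x : M)
      (i : extremePoints ℝ (Hul f)), x ∈ G.A (sk q) → f x = i.1 → x = sx q ∨ x = sy q := by
    intro q x i hx hi
    rcases meet H hx hi with ⟨e, -⟩ | ⟨e, -⟩ <;>
      rcases hsk q with ⟨e1, e2, e3, e4⟩ | ⟨e1, e2, e3, e4⟩
    · exact Or.inl (e.trans e3)
    · exact Or.inr (e.trans e3)
    · exact Or.inr (e.trans e4)
    · exact Or.inl (e.trans e4)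
  have hsT : ∀ q, sk q ∉ T := by
    intro q hq
    have h1 := hT _ hq
    have hqm := q.2
    rcases hsk q with ⟨e1, -, -, -⟩ | ⟨-, e2, -, -⟩
    · have h2 : ⟪n, (G.i0 (sk q)).1⟫_ℝ < m := h1.1
      rw [e1, hqm] at h2
      exact lt_irrefl _ h2
    · have h2 : ⟪n, (G.i1 (sk q)).1⟫_ℝ < m := h1.2
      rw [e2, hqm] at h2
      exact lt_irrefl _ h2
  -- edges in the facet
  have hface : ∀ k : {k : EdgeT f // ⟪n, (G.i0 k).1⟫_ℝ = m ∧ ⟪n, (G.i1 k).1⟫_ℝ = m},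
      ∀ x ∈ G.A k.1, ⟪n, f x⟫_ℝ = m := by
    rintro ⟨k, h0, h1⟩ x hx
    rw [H.hA] at hx
    have hx' : f x ∈ k.1 := hx
    rw [H.seg k] at hx'
    obtain ⟨a, b, ha, hb, hab, hx'⟩ := hx'
    rw [← hx', inner_add_right, real_inner_smul_right, real_inner_smul_right, h0, h1, ← add_mul,
      hab, one_mul]
  have hEfin : Finite (EdgeT f) := by
    refine Finite.of_injective (fun k : EdgeT f => (G.i0 k, G.i1 k)) ?_
    intro k l hkl
    have h1 : G.i0 k = G.i0 l := congrArg Prod.fst hkl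
    have h2 : G.i1 k = G.i1 l := congrArg Prod.snd hkl
    exact H.good.simple k l (by rw [h1, h2])
  let VΦ : Type := {v : extremePoints ℝ (Hul f) // ⟪n, v.1⟫_ℝ = m}
  let EΦ : Type := {k : EdgeT f // ⟪n, (G.i0 k).1⟫_ℝ = m ∧ ⟪n, (G.i1 k).1⟫_ℝ = m}
  have : Fintype VΦ := Fintype.ofFinite _
  have : Fintype EΦ := Fintype.ofFinite _
  -- the underlying edge
  let ed : EΦ ⊕ VΦ → EdgeT f := fun k => match k with
    | Sum.inl k => k.1
    | Sum.inr q => sk q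
  have hed : ∀ k l, ed k = ed l → k = l := by
    rintro (k | q) (l | q') hkl
    · exact congrArg Sum.inl (Subtype.ext hkl)
    · exfalso
      have hkl' : k.1 = sk q' := hkl
      have h1 := k.2
      have h2 := hsm q'
      rw [hkl'] at h1
      rcases hsk q' with ⟨-, e2, -, -⟩ | ⟨e1, -, -, -⟩
      · rw [e2] at h1; rw [h1.2] at h2; exact lt_irrefl _ h2
      · rw [e1] at h1; rw [h1.1] at h2; exact lt_irrefl _ h2
    · exfalso
      have hkl' : sk q = l.1 := hkl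
      have h1 := l.2
      have h2 := hsm q
      rw [← hkl'] at h1
      rcases hsk q with ⟨-, e2, -, -⟩ | ⟨e1, -, -, -⟩
      · rw [e2] at h1; rw [h1.2] at h2; exact lt_irrefl _ h2
      · rw [e1] at h1; rw [h1.1] at h2; exact lt_irrefl _ h2
    · have hkl' : sk q = sk q' := hkl
      apply congrArg Sum.inr
      apply Subtype.ext
      have a1 := hsk q
      have a2 := hsk q'
      rw [hkl'] at a1
      have b1 := hsm q
      have b2 := hsm q'
      have c1 := q.2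
      have c2 := q'.2
      rcases a1 with ⟨e1, e2, -, -⟩ | ⟨e1, e2, -, -⟩ <;>
        rcases a2 with ⟨f1, f2, -, -⟩ | ⟨f1, f2, -, -⟩
      · exact e1.symm.trans f1
      · exfalso
        rw [← e1, f1] at c1
        rw [c1] at b2
        exact lt_irrefl _ b2
      · exfalso
        rw [← f1, e1] at c2
        rw [c2] at b1
        exact lt_irrefl _ b1
      · exact e2.symm.trans f2
  let Γ : FGraph M (VΦ ⊕ Unit) (EΦ ⊕ VΦ) :=
    { Z := fun i => match i with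
        | Sum.inl q => G.Z q.1
        | Sum.inr _ => Sub G W T
      A := fun k => G.A (ed k)
      i0 := fun k => match k with
        | Sum.inl k => Sum.inl ⟨G.i0 k.1, k.2.1⟩
        | Sum.inr q => Sum.inl q
      i1 := fun k => match k with
        | Sum.inl k => Sum.inl ⟨G.i1 k.1, k.2.2⟩
        | Sum.inr _ => Sum.inr ()
      p0 := fun k => match k with
        | Sum.inl k => G.p0 k.1
        | Sum.inr q => sx q
      p1 := fun k => match k with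
        | Sum.inl k => G.p1 k.1
        | Sum.inr q => sy q }
  have hgood : Γ.Good := by
    refine ⟨?_, ?_, ?_, ?_, ?_, ?_, ?_, ?_, ?_⟩
    · rintro (q | ⟨⟩)
      · exact H.good.fat q.1
      · exact hfat
    · have hd : ∀ q : VΦ, Disjoint (G.Z q.1) (Sub G W T) := by
        intro q
        rw [Set.disjoint_left]
        intro x hx hx'
        have h1 := hZ0 x hx'
        rw [H.hZ] at hx
        have hx2 : f x = q.1.1 := hx
        rw [hx2, q.2] at h1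
        exact lt_irrefl _ h1
      rintro (q | ⟨⟩) (q' | ⟨⟩) hne
      · exact H.good.disj q.1 q'.1 (fun h => hne (congrArg Sum.inl (Subtype.ext h)))
      · exact hd q
      · exact (hd q').symm
      · exact absurd rfl hne
    · rintro (k | q)
      · exact H.good.arc k.1
      · exact hsarc q
    · rintro (k | q)
      · exact H.good.m0 k.1
      · show sx q ∈ G.Z q.1
        rw [H.hZ]
        exact hsx q
    · rintro (k | q)
      · exact H.good.m1 k.1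
      · show sy q ∈ Sub G W T
        rw [mem_sub]
        left
        refine ⟨sq q, hsm q, ?_⟩
        rw [H.hZ]
        exact hsy q
    · rintro (k | q) h
      · have h1 := Sum.inl_injective h
        exact H.good.loopless k.1 (congrArg Subtype.val h1)
      · exact Sum.inl_ne_inr h
    · rintro (k | q) (v | ⟨⟩) x hx hxv
      · exact H.good.inter k.1 v.1 x hx hxv
      · exfalso
        have h1 := hface k x hx
        have h2 := hZ0 x hxv
        rw [h1] at h2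
        exact lt_irrefl _ h2
      · have hxv' : x ∈ G.Z v.1 := hxv
        rw [H.hZ] at hxv'
        exact hsmeet q x v.1 hx hxv'
      · have hxv' : x ∈ Sub G W T := hxv
        rw [mem_sub] at hxv'
        rcases hxv' with ⟨i, -, hi⟩ | ⟨l, hl, hxl⟩
        · rw [H.hZ] at hi
          exact hsmeet q x i hx hi
        · have hne : sk q ≠ l := fun h => hsT q (h ▸ hl)
          obtain ⟨i, hi⟩ := H.good.ee (sk q) l x hne hx hxl
          rw [H.hZ] at hi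
          exact hsmeet q x i hx hi
    · intro k l x hne hxk hxl
      obtain ⟨i, hi⟩ := H.good.ee (ed k) (ed l) x (fun h => hne (hed k l h)) hxk hxl
      by_cases him : ⟪n, i.1⟫_ℝ = m
      · exact ⟨Sum.inl ⟨i, him⟩, hi⟩
      · refine ⟨Sum.inr (), ?_⟩
        show x ∈ Sub G W T
        rw [mem_sub]
        left
        exact ⟨i, lt_of_le_of_ne (hle i.1 i.2.1) him, hi⟩
    · rintro (k | q) (l | q') h
      · apply congrArg Sum.inl
        apply Subtype.ext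
        apply H.good.simple
        have h' : ({Sum.inl ⟨G.i0 k.1, k.2.1⟩, Sum.inl ⟨G.i1 k.1, k.2.2⟩} : Set (VΦ ⊕ Unit)) =
            {Sum.inl ⟨G.i0 l.1, l.2.1⟩, Sum.inl ⟨G.i1 l.1, l.2.2⟩} := h
        have h2 := congrArg (fun s : Set (VΦ ⊕ Unit) =>
          {v : extremePoints ℝ (Hul f) | ∃ w : VΦ, Sum.inl w ∈ s ∧ w.1 = v}) h'
        have h3 : ∀ a b : VΦ, {v : extremePoints ℝ (Hul f) |
            ∃ w : VΦ, Sum.inl w ∈ ({Sum.inl a, Sum.inl b} : Set (VΦ ⊕ Unit)) ∧ w.1 = v} =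
            {a.1, b.1} := by
          intro a b
          ext v
          simp only [mem_insert_iff, mem_singleton_iff, Sum.inl.injEq, mem_ofPred_eq]
          constructor
          · rintro ⟨w, (rfl | rfl), rfl⟩
            · exact Or.inl rfl
            · exact Or.inr rfl
          · rintro (rfl | rfl)
            · exact ⟨a, Or.inl rfl, rfl⟩
            · exact ⟨b, Or.inr rfl, rfl⟩
        have h4 := (h3 ⟨G.i0 k.1, k.2.1⟩ ⟨G.i1 k.1, k.2.2⟩).symm.trans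
          (h2.trans (h3 ⟨G.i0 l.1, l.2.1⟩ ⟨G.i1 l.1, l.2.2⟩))
        exact h4
      · exfalso
        have h' : (Sum.inr () : VΦ ⊕ Unit) ∈
            ({Sum.inl ⟨G.i0 k.1, k.2.1⟩, Sum.inl ⟨G.i1 k.1, k.2.2⟩} : Set (VΦ ⊕ Unit)) := by
          have h1 : ({Sum.inl ⟨G.i0 k.1, k.2.1⟩, Sum.inl ⟨G.i1 k.1, k.2.2⟩} : Set (VΦ ⊕ Unit)) =
            {Sum.inl q', Sum.inr ()} := h
          rw [h1]
          exact Or.inr rfl
        rcases h' with h' | h'
        · exact Sum.inr_ne_inl h'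
        · exact Sum.inr_ne_inl h'
      · exfalso
        have h' : (Sum.inr () : VΦ ⊕ Unit) ∈
            ({Sum.inl ⟨G.i0 l.1, l.2.1⟩, Sum.inl ⟨G.i1 l.1, l.2.2⟩} : Set (VΦ ⊕ Unit)) := by
          have h1 : ({Sum.inl q, Sum.inr ()} : Set (VΦ ⊕ Unit)) =
            {Sum.inl ⟨G.i0 l.1, l.2.1⟩, Sum.inl ⟨G.i1 l.1, l.2.2⟩} := h
          rw [← h1]
          exact Or.inr rfl
        rcases h' with h' | h'
        · exact Sum.inr_ne_inl h'
        · exact Sum.inr_ne_inl h'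
      · have h1 : ({Sum.inl q, Sum.inr ()} : Set (VΦ ⊕ Unit)) = {Sum.inl q', Sum.inr ()} := h
        have h2 : (Sum.inl q : VΦ ⊕ Unit) ∈ ({Sum.inl q', Sum.inr ()} : Set (VΦ ⊕ Unit)) := by
          rw [← h1]
          exact Or.inl rfl
        rcases h2 with h2 | h2
        · exact congrArg Sum.inr (Sum.inl_injective h2)
        · exact absurd h2 Sum.inl_ne_inr
  have hcardV : Fintype.card VΦ = (extremePoints ℝ (Hul f) ∩ {r | ⟪n, r⟫_ℝ = m}).ncard := by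
    rw [← Nat.card_eq_fintype_card, ← Nat.card_coe_set_eq]
    exact Nat.card_congr
      { toFun := fun v => ⟨v.1.1, v.1.2, v.2⟩
        invFun := fun v => ⟨⟨v.1, v.2.1⟩, v.2.2⟩
        left_inv := fun v => rfl
        right_inv := fun v => rfl }
  have hfc := face_card hK hc hV hle hFne
  refine ⟨VΦ ⊕ Unit, EΦ ⊕ VΦ, inferInstance, inferInstance, Γ, hgood, ?_, ?_, ?_⟩
  · rw [Fintype.card_sum, hcardV]
    rfl
  · omega
  · rw [Fintype.card_sum, ← hcardV]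
    -- double counting
    have hdeg : (N - 1) * Fintype.card VΦ ≤ 2 * Fintype.card EΦ := by
      let D : VΦ → Set (EuclideanSpace ℝ (Fin N)) := fun q => {q' | PEdge (Hul f) q.1.1 q' ∧
        ⟪n, q'⟫_ℝ = m}
      have hD1 : ∀ q : VΦ, (D q).Finite ∧ N - 1 ≤ (D q).ncard := by
        intro q
        obtain ⟨h1, h2⟩ := hD N (Hul f) hK hc hV q.1.1 n m q.1.2 hle q.2
        rw [hrank] at h2
        exact ⟨h1.subset (fun r hr => hr.1), h2⟩
      have : ∀ q : VΦ, Finite (D q) := fun q => (hD1 q).1.to_subtype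
      let g : (Σ q : VΦ, D q) → EdgeT f × extremePoints ℝ (Hul f) := fun x =>
        (⟨segment ℝ x.1.1.1 x.2.1, x.1.1.1, x.2.1, x.2.2.1, rfl⟩, x.1.1)
      have hflag : ∀ x : (Σ q : VΦ, D q), ∃ y : EΦ × Bool,
          (x.1.1.1 = (if y.2 then G.i0 y.1.1 else G.i1 y.1.1).1) ∧
          (x.2.1 = (if y.2 then G.i1 y.1.1 else G.i0 y.1.1).1) := by
        rintro ⟨q, ⟨q', hq', hq'm⟩⟩
        have hqV : q' ∈ extremePoints ℝ (Hul f) := pedge_ext (pedge_symm hq')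
        obtain ⟨k, x, y, -, -, -, h4⟩ := edge_of H (r := q.1) (q := ⟨q', hqV⟩) hq'
        rcases h4 with ⟨e1, e2, -, -⟩ | ⟨e1, e2, -, -⟩
        · refine ⟨(⟨k, by rw [e1]; exact q.2, by rw [e2]; exact hq'm⟩, true), ?_, ?_⟩
          · show q.1.1 = (G.i0 k).1
            rw [e1]
          · show q' = (G.i1 k).1
            rw [e2]
        · refine ⟨(⟨k, by rw [e1]; exact hq'm, by rw [e2]; exact q.2⟩, false), ?_, ?_⟩
          · show q.1.1 = (G.i1 k).1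
            rw [e2]
          · show q' = (G.i0 k).1
            rw [e1]
      choose φ hφ1 hφ2 using hflag
      have hφ : Function.Injective φ := by
        intro x y hxy
        have h1 : x.1.1.1 = y.1.1.1 := by rw [hφ1 x, hφ1 y, hxy]
        have h2 : x.2.1 = y.2.1 := by rw [hφ2 x, hφ2 y, hxy]
        obtain ⟨⟨⟨p, hp⟩, hpm⟩, ⟨q, hq⟩⟩ := x
        obtain ⟨⟨⟨p', hp'⟩, hpm'⟩, ⟨q', hq'⟩⟩ := y
        simp only at h1 h2
        subst h1
        subst h2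
        rfl
      have h1 := Nat.card_le_card_of_injective φ hφ
      rw [Nat.card_prod, Nat.card_sigma] at h1
      have h2 : Nat.card Bool = 2 := by
        rw [Nat.card_eq_fintype_card]
        exact Fintype.card_bool
      have h3 : ∑ _q : VΦ, (N - 1) ≤ ∑ q : VΦ, Nat.card (D q) :=
        Finset.sum_le_sum (fun q _ => by rw [Nat.card_coe_set_eq]; exact (hD1 q).2)
      rw [Finset.sum_const, Finset.card_univ, smul_eq_mul] at h3
      rw [h2, Nat.card_eq_fintype_card] at h1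
      nlinarith
    obtain ⟨N', rfl⟩ : ∃ N', N = N' + 1 := ⟨N - 1, by omega⟩
    rw [Nat.add_sub_cancel] at hdeg
    nlinarith

end Pool.Agent.Y523.PB
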